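import Pool.Agent.X333.SL.Comp
import Pool.Agent.TH710.ND.Proj
import Pool.Agent.Helper6K9.EX.Par

set_option autoImplicit false

/-! # Short rational curves and the varieties which are not of general type -/

namespace Pool.Agent.Helper6K9.LG

open MvPolynomial Pool.Agent.W602.GT Pool.Agent.TH710.ND Pool.Agent.H533R3.SL
  Pool.Agent.Helper6K9.EX
open Pool.Agent.X333.MC (vForms)

variable {k : Type} [Field k] {n : ℕ} {ι : Type}

/-- `p` is a nonconstant rational curve in `X = {F = 0}` -/
def IsCurve (F : ι → MvPolynomial (Fin (n + 1)) k) (p : Fin (n + 1) → Polynomial k) : Prop :=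
  NonConst p ∧ ∀ i, aeval p (F i) = 0

/-- zeros can be added to a curve with few terms -/
theorem cur_pad {r r' : ℕ} (h : r ≤ r') (l : Fin r → ℕ) (c : Fin r → Fin (n + 1) → k) :
    ∃ (l' : Fin r' → ℕ) (c' : Fin r' → Fin (n + 1) → k), cur c' l' = cur c l := by
  classical
  refine ⟨fun j => if h : (j : ℕ) < r then l ⟨j, h⟩ else 0,
    fun j => if h : (j : ℕ) < r then c ⟨j, h⟩ else 0, ?_⟩
  funext i
  unfold cur
  symm
  refine Finset.sum_of_injOn (fun j => (⟨j, j.2.trans_le h⟩ : Fin r')) ?_ ?_ ?_ ?_
  · intro a _ b _ hab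
    simpa [Fin.ext_iff] using hab
  · intro a _
    simp
  · intro j _ hj
    have h1 : ¬ (j : ℕ) < r := by
      intro h2
      apply hj
      exact ⟨⟨j, h2⟩, by simp, by simp⟩
    simp [h1]
  · intro j _
    simp

theorem aeval_eval (p : Fin (n + 1) → Polynomial k) (G : MvPolynomial (Fin (n + 1)) k) (t : k) :
    (aeval p G).eval t = val (fun i => (p i).eval t) G := by
  have h1 : ∀ q : Polynomial k, q.eval t = ((Polynomial.aeval t).restrictScalars k) q := by
    intro q
    rw [AlgHom.restrictScalars_apply, Polynomial.coe_aeval_eq_eval]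
  rw [h1, MvPolynomial.comp_aeval_apply]
  rfl

theorem aeval_zero_iff [Infinite k] (p : Fin (n + 1) → Polynomial k)
    (G : MvPolynomial (Fin (n + 1)) k) :
    aeval p G = 0 ↔ ∀ t : k, t ≠ 0 → val (fun i => (p i).eval t) G = 0 := by
  constructor
  · intro h t _
    rw [← aeval_eval, h, Polynomial.eval_zero]
  · intro h
    have h1 : Polynomial.X * aeval p G = 0 := by
      refine Polynomial.funext fun t => ?_
      rw [Polynomial.eval_mul, Polynomial.eval_X, aeval_eval, Polynomial.eval_zero]
      by_cases ht : t = 0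
      · rw [ht, zero_mul]
      · rw [h t ht, mul_zero]
    exact (mul_eq_zero.1 h1).resolve_left Polynomial.X_ne_zero

variable [CharZero k] [IsAlgClosed k]

/-- forms which vanish on the subvarieties which are not of general type vanish on the rational
curves -/
theorem curve_of_special {F : ι → MvPolynomial (Fin (n + 1)) k} (hF : ∀ e, IsForm (F e))
    {p : Fin (n + 1) → Polynomial k} (hp : IsCurve F p) {H : MvPolynomial (Fin (n + 1)) k}
    (hH : IsForm H)
    (h : ∀ (K : Type) [Field K] [Algebra k K] (y : Fin (n + 1) → K),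
      SubVar F K 1 y → ¬ GeneralType k K 1 → val y H = 0) : aeval p H = 0 := by
  classical
  have hinj : Function.Injective (algebraMap (Polynomial k) (RatFunc k)) :=
    RatFunc.algebraMap_injective k
  let y : Fin (n + 1) → RatFunc k := fun i => algebraMap (Polynomial k) (RatFunc k) (p i)
  have hval : ∀ G : MvPolynomial (Fin (n + 1)) k, val y G =
      algebraMap (Polynomial k) (RatFunc k) (aeval p G) := by
    intro G
    unfold Pool.Agent.W602.GT.val
    exact (MvPolynomial.aeval_algebraMap_apply (RatFunc k) p G)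
  obtain ⟨⟨i, j, a, b, hab⟩, hmem⟩ := hp
  have hmem' : ∀ e, val y (F e) = 0 := fun e => by rw [hval, hmem e, map_zero]
  obtain ⟨j0, hj0⟩ : ∃ j0, p j0 ≠ 0 := by
    by_contra hcon
    push Not at hcon
    apply hab
    rw [hcon i, hcon j]
  have hj0' : y j0 ≠ 0 := (map_ne_zero_iff _ hinj).2 hj0
  have hnc : coords k y ≠ ⊥ := by
    intro hbot
    have hc : ∀ i, ∃ c : k, p i = Polynomial.C c * p j0 := by
      intro i
      have h1 : y i / y j0 ∈ coords k y :=
        IntermediateField.subset_adjoin k _ ⟨i, j0, hj0', rfl⟩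
      rw [hbot, IntermediateField.mem_bot] at h1
      obtain ⟨c, hc⟩ := h1
      refine ⟨c, ?_⟩
      have h2 : y i = algebraMap k (RatFunc k) c * y j0 := by
        rw [hc]
        field_simp
      apply hinj
      rw [map_mul]
      change y i = _ * y j0
      rw [h2]
      congr 1
    obtain ⟨ci, hci⟩ := hc i
    obtain ⟨cj, hcj⟩ := hc j
    apply hab
    rw [hci, hcj]
    simp only [Polynomial.eval_mul, Polynomial.eval_C]
    ring
  obtain ⟨y', hy', hgt, hG⟩ := rational_sub hF y hj0' hmem' hnc
  have h1 := hG H hH (h _ y' hy' hgt)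
  rw [hval] at h1
  exact hinj (by rw [h1, map_zero])

/-- an orbit of a diagonal one-parameter group is a curve with `n + 1` terms -/
theorem short_of_diag {F : ι → MvPolynomial (Fin (n + 1)) k} {x : Fin (n + 1) → k}
    {b : Fin (n + 1) → ℤ} (h : DiagCurve ∅ F x b) (hF : ∀ e, IsForm (F e))
    {H : MvPolynomial (Fin (n + 1)) k} (hH : val x H ≠ 0) :
    ∃ (l : Fin (n + 1) → ℕ) (c : Fin (n + 1) → Fin (n + 1) → k),
      IsCurve F (cur c l) ∧ aeval (cur c l) H ≠ 0 := by
  classical
  obtain ⟨hX, i, i', hi, hi', hb⟩ := h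
  obtain ⟨M, hM⟩ : ∃ M : ℕ, ∀ j, 0 ≤ b j + M := by
    refine ⟨∑ j, (b j).natAbs, fun j => ?_⟩
    have h1 := Finset.single_le_sum (f := fun j => (b j).natAbs)
      (fun _ _ => Nat.zero_le _) (Finset.mem_univ j)
    have h2 : (((b j).natAbs : ℕ) : ℤ) ≤ ((∑ j, (b j).natAbs : ℕ) : ℤ) := by
      exact_mod_cast h1
    have h3 := Int.le_natAbs (a := -(b j))
    rw [Int.natAbs_neg] at h3
    linarith
  let l : Fin (n + 1) → ℕ := fun j => (b j + M).toNat
  let c : Fin (n + 1) → Fin (n + 1) → k := fun j i => if j = i then x i else 0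
  have hcur : ∀ j, cur c l j = Polynomial.C (x j) * Polynomial.X ^ l j := by
    intro j
    unfold cur
    rw [Finset.sum_eq_single j]
    · simp [c]
    · intro j' _ hj'
      simp [c, hj']
    · simp
  have hP : ∀ t : k, t ≠ 0 → (fun j => (cur c l j).eval t) = fun j => t ^ M * (t ^ b j * x j) := by
    intro t ht
    funext j
    rw [hcur]
    simp only [Polynomial.eval_mul, Polynomial.eval_C, Polynomial.eval_pow, Polynomial.eval_X, l]
    have h1 : t ^ (b j + M).toNat = t ^ (b j + M) := by
      conv_rhs => rw [← Int.toNat_of_nonneg (hM j)]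
      rw [zpow_natCast]
    rw [h1, zpow_add₀ ht, zpow_natCast]
    ring
  refine ⟨l, c, ⟨⟨i, i', 2, 1, ?_⟩, fun e => ?_⟩, ?_⟩
  · rw [hcur, hcur]
    simp only [Polynomial.eval_mul, Polynomial.eval_C, Polynomial.eval_pow, Polynomial.eval_X,
      one_pow, mul_one]
    intro h0
    have h1 : (2 : k) ^ l i = 2 ^ l i' := by
      have h2 : x i * x i' ≠ 0 := mul_ne_zero hi hi'
      have h3 : (x i * x i') * ((2 : k) ^ l i) = (x i * x i') * 2 ^ l i' := by
        linear_combination h0
      exact mul_left_cancel₀ h2 h3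
    have h2 : l i = l i' := by
      have h3 : ((2 ^ l i : ℕ) : k) = ((2 ^ l i' : ℕ) : k) := by push_cast; exact h1
      exact Nat.pow_right_injective le_rfl (Nat.cast_injective h3)
    apply hb
    have h3 := Int.toNat_of_nonneg (hM i)
    have h4 := Int.toNat_of_nonneg (hM i')
    have h5 : ((b i + M).toNat : ℤ) = (b i' + M).toNat := by exact_mod_cast h2
    linarith
  · refine (aeval_zero_iff _ _).2 fun t ht => ?_
    rw [hP t ht]
    obtain ⟨d, hd⟩ := hF e
    rw [val_smul hd (t ^ M) (fun j => t ^ b j * x j), (hX t ht).2.2 e, mul_zero]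
  · intro h0
    have h1 := (aeval_zero_iff _ _).1 h0 1 one_ne_zero
    rw [hP 1 one_ne_zero] at h1
    apply hH
    simpa using h1

/-- a line is a curve with two terms -/
theorem short_of_line {F : ι → MvPolynomial (Fin (n + 1)) k} {a b : Fin (n + 1) → k}
    (hab : Line F a b) {H : MvPolynomial (Fin (n + 1)) k} (hHf : IsForm H) {c c' : k}
    (hH : val (c • a + c' • b) H ≠ 0) :
    ∃ (l : Fin 2 → ℕ) (v : Fin 2 → Fin (n + 1) → k),
      IsCurve F (cur v l) ∧ aeval (cur v l) H ≠ 0 := by
  classical
  obtain ⟨hind, hX⟩ := hab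
  -- a point of the line where `H ≠ 0`, and another point of the line
  have hmain : ∀ a b : Fin (n + 1) → k, LinearIndependent k ![a, b] →
      (∀ (c c' : k) (i : ι), val (c • a + c' • b) (F i) = 0) → val a H ≠ 0 →
      ∃ (l : Fin 2 → ℕ) (v : Fin 2 → Fin (n + 1) → k),
      IsCurve F (cur v l) ∧ aeval (cur v l) H ≠ 0 := by
    intro a b hind hX hH
    let l : Fin 2 → ℕ := ![0, 1]
    let v : Fin 2 → Fin (n + 1) → k := ![a, b]
    have hcur : ∀ t : k, (fun i => (cur v l i).eval t) = (1 : k) • a + t • b := by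
      intro t
      funext i
      simp [cur, l, v, Fin.sum_univ_two]
      ring
    refine ⟨l, v, ⟨?_, fun e => ?_⟩, ?_⟩
    · -- nonconstant
      by_contra hcon
      have h1 : ∀ i j, a i * b j = a j * b i := by
        intro i j
        by_contra hne
        apply hcon
        refine ⟨i, j, 0, 1, ?_⟩
        have e0 := congrFun (hcur 0)
        have e1 := congrFun (hcur 1)
        rw [e0 i, e0 j, e1 j, e1 i]
        simp only [Pi.add_apply, Pi.smul_apply, smul_eq_mul, one_mul, zero_mul, add_zero]
        intro h2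
        apply hne
        linear_combination h2
      rw [LinearIndependent.pair_iff] at hind
      have ha : a ≠ 0 := by
        intro h0
        have h2 := hind 1 0 (by rw [h0]; simp)
        exact one_ne_zero h2.1
      obtain ⟨i0, hi0⟩ := Function.ne_iff.1 ha
      have h2 := hind (b i0) (-(a i0)) (by
        funext j
        simp only [Pi.add_apply, Pi.smul_apply, smul_eq_mul, Pi.zero_apply]
        linear_combination - h1 i0 j)
      exact hi0 (by simpa using h2.2)
    · refine (aeval_zero_iff _ _).2 fun t _ => ?_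
      rw [hcur t]
      exact hX 1 t e
    · intro h0
      have h1 := aeval_eval (cur v l) H 0
      rw [h0, hcur 0] at h1
      apply hH
      simpa using h1.symm
  by_cases hc : c = 0
  · by_cases hc' : c' = 0
    · refine hmain a b hind hX fun h0 => hH ?_
      rw [hc, hc']
      have h1 := val_zero_of hHf h0
      simpa using h1
    · refine hmain (c • a + c' • b) a ?_ ?_ hH
      · rw [LinearIndependent.pair_iff] at hind ⊢
        intro s t hst
        have h1 := hind t (s * c') (by
          rw [hc] at hst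
          rw [← hst]
          funext j
          simp only [Pi.add_apply, Pi.smul_apply, smul_eq_mul]
          ring)
        exact ⟨(mul_eq_zero.1 h1.2).resolve_right hc', h1.1⟩
      · intro d d' e
        have h1 := hX (d * c + d') (d * c') e
        have e1 : (d * c + d') • a + (d * c') • b = d • (c • a + c' • b) + d' • a := by
          funext j
          simp only [Pi.add_apply, Pi.smul_apply, smul_eq_mul]
          ring
        rwa [e1] at h1
  · refine hmain (c • a + c' • b) b ?_ ?_ hH
    · rw [LinearIndependent.pair_iff] at hind ⊢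
      intro s t hst
      have h1 := hind (s * c) (s * c' + t) (by
        rw [← hst]
        funext j
        simp only [Pi.add_apply, Pi.smul_apply, smul_eq_mul]
        ring)
      have h2 : s = 0 := (mul_eq_zero.1 h1.1).resolve_right hc
      refine ⟨h2, ?_⟩
      have h3 := h1.2
      rwa [h2, zero_mul, zero_add] at h3
    · intro d d' e
      have h1 := hX (d * c) (d * c' + d') e
      have e1 : (d * c) • a + (d * c' + d') • b = d • (c • a + c' • b) + d' • b := by
        funext j
        simp only [Pi.add_apply, Pi.smul_apply, smul_eq_mul]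
        ring
      rwa [e1] at h1

/-- **Short curves, nested sums of high powers of linear forms.** -/
theorem line_of_not {F : ι → MvPolynomial (Fin (n + 1)) k} {s N h : ℕ}
    (hF : ∀ e, IsNested s N h (F e)) (hN : bnd n s h ≤ N) {K : Type} [Field K] [Algebra k K]
    {w : ℕ} {y : Fin (n + 1) → K} (hy0 : y ≠ 0) (hmem : ∀ i, val y (F i) = 0)
    (hgen : Algebra.IsAlgebraic (coords k y) K) (hdim : Algebra.trdeg k K = w)
    (hgt : ¬ GeneralType k K w) {H : MvPolynomial (Fin (n + 1)) k} (hH : IsForm H)
    (hHy : val y H ≠ 0) :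
    ∃ (l : Fin 2 → ℕ) (v : Fin 2 → Fin (n + 1) → k),
      IsCurve F (cur v l) ∧ aeval (cur v l) H ≠ 0 := by
  obtain ⟨v, hv, hl⟩ := waring_n hF hN hy0 hgen hdim hmem (not_log hgt)
  by_contra hcon
  push Not at hcon
  apply hHy
  refine mem_closure y v hv hl ?_
  intro a b hab c c'
  by_contra hne
  obtain ⟨l, v, h1, h2⟩ := short_of_line hab hH hne
  exact h2 (hcon l v h1)

/-- **Short curves.** A variety which is not of general type with a generically finite map to `X`
is covered by rational curves in `X` with `n + 1` terms. -/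
theorem short_of_not {F : ι → MvPolynomial (Fin (n + 1)) k} {s N h : ℕ}
    (hF : HighTowers s N h F) (hN : bnd n s h ≤ N) {K : Type} [Field K] [Algebra k K]
    {w : ℕ} {y : Fin (n + 1) → K} (hy0 : y ≠ 0) (hmem : ∀ i, val y (F i) = 0)
    (hgen : Algebra.IsAlgebraic (coords k y) K) (hdim : Algebra.trdeg k K = w)
    (hgt : ¬ GeneralType k K w) {H : MvPolynomial (Fin (n + 1)) k} (hH : IsForm H)
    (hHy : val y H ≠ 0) :
    ∃ (l : Fin (n + 1) → ℕ) (v : Fin (n + 1) → Fin (n + 1) → k),
      IsCurve F (cur v l) ∧ aeval (cur v l) H ≠ 0 := by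
  rcases hF with h | h
  · obtain ⟨l, v, ⟨hnc, hm⟩, h2⟩ := line_of_not h hN hy0 hmem hgen hdim hgt hH hHy
    have hn : 2 ≤ n + 1 := by
      by_contra hlt
      have hn0 : n = 0 := by omega
      subst hn0
      obtain ⟨i, j, a, b, hab⟩ := hnc
      apply hab
      have hij : i = j := by
        apply Fin.ext
        omega
      rw [hij]
    obtain ⟨l', v', hcur⟩ := cur_pad hn l v
    exact ⟨l', v', ⟨by rw [hcur]; exact hnc, by rw [hcur]; exact hm⟩, by rw [hcur]; exact h2⟩
  · obtain ⟨x, b, hd, hx⟩ := Pool.Agent.X333.NM.orbits_of_not (U := ∅) (fun e => (h e).2) hN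
      (K := K) (w := w) (y := y)
      ⟨hy0, fun j hj => absurd hj (Set.notMem_empty j), hmem, hgen, hdim⟩ (not_log hgt) hHy
    exact short_of_diag hd (fun e => (h e).1) hx

end Pool.Agent.Helper6K9.LG
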