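import Mathlib

set_option autoImplicit false

/-! # Descent of the field of definition for spaces of polynomials -/

namespace Pool.Agent.Helper6K9.LG

open MvPolynomial

variable {k L τ : Type} [Field k] [Field L] [Algebra k L]

theorem fixed_poly [IsGalois k L] (H : MvPolynomial τ L)
    (h : ∀ σ : L ≃ₐ[k] L, map (σ : L →+* L) H = H) :
    ∃ g : MvPolynomial τ k, map (algebraMap k L) g = H := by
  have h1 : H ∈ Set.range (MvPolynomial.map (σ := τ) (algebraMap k L)) := by
    rw [MvPolynomial.mem_range_map_iff_coeffs_subset]
    intro a ha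
    rw [Finset.mem_coe, MvPolynomial.mem_coeffs_iff] at ha
    obtain ⟨m, -, rfl⟩ := ha
    rw [Set.mem_range]
    refine (InfiniteGalois.mem_range_algebraMap_iff_fixed (k := k) (K := L) _).2 fun σ => ?_
    have h2 := congrArg (fun p => MvPolynomial.coeff m p) (h σ)
    simpa [MvPolynomial.coeff_map] using h2
  obtain ⟨g, hg⟩ := h1
  exact ⟨g, hg⟩

/-- **Descent.** A Galois stable space of polynomials is spanned by polynomials over the base
field. -/
theorem galois_descent [IsGalois k L] (I : Submodule L (MvPolynomial τ L))
    (hI : ∀ σ : L ≃ₐ[k] L, ∀ H ∈ I, map (σ : L →+* L) H ∈ I) :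
    ∀ H ∈ I, H ∈ Submodule.span L {F | F ∈ I ∧ ∃ g : MvPolynomial τ k,
      map (algebraMap k L) g = F} := by
  classical
  suffices h : ∀ c : ℕ, ∀ H ∈ I, H.support.card = c → H ∈ Submodule.span L {F | F ∈ I ∧
      ∃ g : MvPolynomial τ k, map (algebraMap k L) g = F} from fun H hH => h _ H hH rfl
  intro c
  induction c using Nat.strong_induction_on with
  | _ c ih =>
    intro H hH hc
    by_cases hH0 : H = 0
    · rw [hH0]
      exact Submodule.zero_mem _
    -- a nonzero element with minimal support contained in the support of `H`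
    have hex : ∃ d : ℕ, ∃ H' ∈ I, H' ≠ 0 ∧ H'.support ⊆ H.support ∧ H'.support.card = d :=
      ⟨_, H, hH, hH0, subset_rfl, rfl⟩
    obtain ⟨H1, hH1, hne, hsub, hcard⟩ := Nat.find_spec hex
    have hmin : ∀ H' ∈ I, H' ≠ 0 → H'.support ⊆ H.support → H1.support.card ≤ H'.support.card := by
      intro H' h1 h2 h3
      rw [hcard]
      exact Nat.find_min' hex ⟨H', h1, h2, h3, rfl⟩
    obtain ⟨m, hm⟩ : ∃ m, m ∈ H1.support := by
      rw [← Finset.nonempty_def, Finset.nonempty_iff_ne_empty, Ne, MvPolynomial.support_eq_empty]
      exact hne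
    have hm0 : H1.coeff m ≠ 0 := MvPolynomial.mem_support_iff.1 hm
    let H2 : MvPolynomial τ L := (H1.coeff m)⁻¹ • H1
    have hH2 : H2 ∈ I := I.smul_mem _ hH1
    have hc2 : H2.coeff m = 1 := by
      simp only [H2, MvPolynomial.coeff_smul, smul_eq_mul]
      exact inv_mul_cancel₀ hm0
    have hsup2 : H2.support = H1.support := by
      ext a
      simp only [MvPolynomial.mem_support_iff, H2, MvPolynomial.coeff_smul, smul_eq_mul, ne_eq,
        mul_eq_zero, inv_eq_zero, hm0, false_or]
    have hfix : ∀ σ : L ≃ₐ[k] L, map (σ : L →+* L) H2 = H2 := by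
      intro σ
      by_contra hn
      have h1 : map (σ : L →+* L) H2 - H2 ∈ I := I.sub_mem (hI σ _ hH2) hH2
      have h2 : map (σ : L →+* L) H2 - H2 ≠ 0 := sub_ne_zero.2 hn
      have h3 : (map (σ : L →+* L) H2 - H2).support ⊆ H1.support.erase m := by
        intro a ha
        rw [MvPolynomial.mem_support_iff, MvPolynomial.coeff_sub, MvPolynomial.coeff_map] at ha
        rw [Finset.mem_erase]
        constructor
        · rintro rfl
          apply ha
          rw [hc2]
          simp
        · rw [← hsup2, MvPolynomial.mem_support_iff]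
          intro h0
          apply ha
          rw [h0]
          simp
      have h4 := hmin _ h1 h2 (h3.trans ((Finset.erase_subset _ _).trans hsub))
      have h5 := Finset.card_le_card h3
      have h6 := Finset.card_erase_lt_of_mem hm
      omega
    obtain ⟨g, hg⟩ := fixed_poly H2 hfix
    have hmem2 : H2 ∈ Submodule.span L {F | F ∈ I ∧ ∃ g : MvPolynomial τ k,
        map (algebraMap k L) g = F} := Submodule.subset_span ⟨hH2, g, hg⟩
    have h7 : H - H.coeff m • H2 ∈ I := I.sub_mem hH (I.smul_mem _ hH2)
    have h8 : (H - H.coeff m • H2).support ⊆ H.support.erase m := by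
      intro a ha
      rw [MvPolynomial.mem_support_iff, MvPolynomial.coeff_sub, MvPolynomial.coeff_smul] at ha
      rw [Finset.mem_erase]
      constructor
      · rintro rfl
        apply ha
        rw [hc2]
        simp
      · rw [MvPolynomial.mem_support_iff]
        intro h0
        apply ha
        have h9 : H2.coeff a = 0 := by
          by_contra h10
          have h11 : a ∈ H2.support := MvPolynomial.mem_support_iff.2 h10
          rw [hsup2] at h11
          exact MvPolynomial.mem_support_iff.1 (hsub h11) h0
        rw [h0, h9]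
        simp
    have h9 : (H - H.coeff m • H2).support.card < c := by
      rw [← hc]
      exact (Finset.card_le_card h8).trans_lt (Finset.card_erase_lt_of_mem (hsub hm))
    have h10 := ih _ h9 _ h7 rfl
    have h11 := Submodule.add_mem _ h10 (Submodule.smul_mem _ (H.coeff m) hmem2)
    rwa [sub_add_cancel] at h11

end Pool.Agent.Helper6K9.LG
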