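import Pool.Agent.Helper6K9.LG.Cur
import Pool.Agent.Helper6K9.LG.Desc

set_option autoImplicit false
set_option linter.unusedSectionVars false

/-! # The special sets in terms of rational curves, and their field of definition -/

namespace Pool.Agent.Helper6K9.LG

open MvPolynomial Pool.Agent.W602.GT Pool.Agent.TH710.ND Pool.Agent.H533R3.SL
  Pool.Agent.Helper6K9.EX
open Pool.Agent.X333.MC (vForms)
open Pool.Agent.X333.SL (SpMaps)

section special
variable {k : Type} [Field k] [IsAlgClosed k] [CharZero k] {n : ℕ} {ι : Type}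
  {F : ι → MvPolynomial (Fin (n + 1)) k} {s N h : ℕ}

theorem mem_spAlg_iff (hF : HighTowers s N h F) (hN : bnd n s h ≤ N) {x : Fin (n + 1) → k}
    (hx : x ∈ Cone F) : x ∈ SpAlg F ↔ ∀ H : MvPolynomial (Fin (n + 1)) k, IsForm H →
      (∀ p, IsCurve F p → aeval p H = 0) → val x H = 0 := by
  constructor
  · rintro ⟨-, h1⟩ H hH hp
    refine h1 H hH ?_
    intro K _ _ w y hw hy hgt
    by_contra hne
    have hgen : Algebra.IsAlgebraic (coords k y) K := by
      rw [hy.gen]
      infer_instance
    obtain ⟨l, v, h2, h3⟩ := short_of_not hF hN hy.ne hy.mem hgen hy.dim hgt hH hne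
    exact h3 (hp _ h2)
  · intro h1
    refine ⟨hx, fun H hH h2 => h1 H hH fun p hp => ?_⟩
    exact curve_of_special (fun e => hF.form e) hp hH fun K _ _ y hy hgt =>
      h2 K 1 y le_rfl hy hgt

theorem mem_spMaps_iff (hF : HighTowers s N h F) (hN : bnd n s h ≤ N) {x : Fin (n + 1) → k}
    (hx : x ∈ Cone F) : x ∈ SpMaps F ↔ ∀ H : MvPolynomial (Fin (n + 1)) k, IsForm H →
      (∀ p, IsCurve F p → aeval p H = 0) → val x H = 0 := by
  constructor
  · rintro ⟨-, h1⟩ H hH hp
    refine h1 H hH ?_
    intro K _ _ w y hw hy0 hmem hgen hdim hgt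
    by_contra hne
    obtain ⟨l, v, h2, h3⟩ := short_of_not hF hN hy0 hmem hgen hdim hgt hH hne
    exact h3 (hp _ h2)
  · intro h1
    refine ⟨hx, fun H hH h2 => h1 H hH fun p hp => ?_⟩
    refine curve_of_special (fun e => hF.form e) hp hH fun K _ _ y hy hgt => ?_
    have hgen : Algebra.IsAlgebraic (coords k y) K := by
      rw [hy.gen]
      infer_instance
    exact h2 K 1 y le_rfl hy.ne hy.mem hgen hy.dim hgt

/-- the curves in `X` which are not contained in a component `V` -/
theorem curve_in_comp {K : Type} [Field K] [Algebra k K] {y : Fin (n + 1) → K}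
    {H' : MvPolynomial (Fin (n + 1)) k}
    (hcone : ∀ x ∈ Cone F, val x H' ≠ 0 → x ∈ VarPts k y) {p : Fin (n + 1) → Polynomial k}
    (hp : IsCurve F p) (hH' : aeval p H' ≠ 0) : IsCurve (vForms k y) p := by
  refine ⟨hp.1, fun I => ?_⟩
  -- the polynomials `p` have a nonzero value outside a finite set
  obtain ⟨j0, hj0⟩ : ∃ j0, p j0 ≠ 0 := by
    by_contra hcon
    push Not at hcon
    obtain ⟨i, j, a, b, hab⟩ := hp.1
    apply hab
    rw [hcon i, hcon j]
  have h1 : p j0 * aeval p H' * aeval p (vForms k y I) = 0 := by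
    refine Polynomial.funext fun t => ?_
    rw [Polynomial.eval_mul, Polynomial.eval_mul, aeval_eval, aeval_eval, Polynomial.eval_zero]
    by_cases h0 : (p j0).eval t = 0
    · rw [h0]
      ring
    by_cases h2 : val (fun i => (p i).eval t) H' = 0
    · rw [h2]
      ring
    have h3 : (fun i => (p i).eval t) ∈ Cone F := by
      refine ⟨fun h4 => h0 (congrFun h4 j0), fun e => ?_⟩
      rw [← aeval_eval, hp.2 e, Polynomial.eval_zero]
    have h4 := (hcone _ h3 h2).2 I.1 I.2.1 I.2.2
    change _ * _ * val _ I.1 = 0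
    rw [h4, mul_zero]
  exact (mul_eq_zero.1 h1).resolve_left (mul_ne_zero hj0 hH')

/-- a component of general type is not covered by the rational curves of `X` -/
theorem form_of_gt (hF : HighTowers s N h F) (hN : (n + 1) * ((h + 1) * (2 * s + 1) ^ 5) ≤ N)
    [Finite ι] {K : Type} [Field K] [Algebra k K] {w : ℕ} (hw : 1 ≤ w) {y : Fin (n + 1) → K}
    (hy : SubVar F K w y) (hcomp : IsComponent F y) (hgt : GeneralType k K w) :
    ∃ H : MvPolynomial (Fin (n + 1)) k, IsForm H ∧ val y H ≠ 0 ∧
      ∀ p, IsCurve F p → aeval p H = 0 := by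
  have hne : SpMaps (vForms k y) ≠ Cone (vForms k y) := by
    rcases hF with h1 | h1
    · exact Pool.Agent.X333.SL.maps_lin h1 hN hw hy hcomp hgt
    · exact Pool.Agent.X333.SL.maps_mono h1 hN hw hy hcomp hgt
  obtain ⟨x0, hx0, hx1⟩ : ∃ x0 ∈ Cone (vForms k y), x0 ∉ SpMaps (vForms k y) := by
    by_contra hcon
    push Not at hcon
    exact hne (Set.Subset.antisymm (fun x hx => hx.1) hcon)
  have h2 : ¬ ∀ G : MvPolynomial (Fin (n + 1)) k, IsForm G →
      (∀ (K : Type) [Field K] [Algebra k K] (w : ℕ) (y' : Fin (n + 1) → K), 1 ≤ w → y' ≠ 0 →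
      (∀ i, val y' (vForms k y i) = 0) → Algebra.IsAlgebraic (coords k y') K →
      Algebra.trdeg k K = w → ¬ GeneralType k K w → val y' G = 0) → val x0 G = 0 :=
    fun h3 => hx1 ⟨hx0, h3⟩
  push Not at h2
  obtain ⟨H1, hH1, hH1m, hH1x⟩ := h2
  have hH1y : val y H1 ≠ 0 := fun h3 => hH1x (hx0.2 ⟨H1, hH1, h3⟩)
  obtain ⟨H', hH', hH'y, hcone⟩ := hcomp
  refine ⟨H1 * H', ?_, by rw [val_mul]; exact mul_ne_zero hH1y hH'y, fun p hp => ?_⟩
  · obtain ⟨d, hd⟩ := hH1
    obtain ⟨d', hd'⟩ := hH'
    exact ⟨d + d', hd.mul hd'⟩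
  · rw [map_mul]
    by_cases h3 : aeval p H' = 0
    · rw [h3, mul_zero]
    · have h4 := curve_in_comp hcone hp h3
      have h5 : aeval p H1 = 0 := by
        refine curve_of_special (F := vForms k y) (fun I => I.2.1) h4 hH1
          fun K' _ _ y' hy' hgt' => ?_
        have hgen : Algebra.IsAlgebraic (coords k y') K' := by
          rw [hy'.gen]
          infer_instance
        exact hH1m K' 1 y' le_rfl hy'.ne hy'.mem hgen hy'.dim hgt'
      rw [h5, zero_mul]

end special

section base
variable {k L : Type} [Field k] [Field L] [Algebra k L] {n q m : ℕ}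

variable (L) in
/-- the same equations over an extension of the base field -/
noncomputable def bar (P : Fin q → MvPolynomial (Fin (n + 1)) k) :
    Fin q → MvPolynomial (Fin (n + 1)) L := fun i => map (algebraMap k L) (P i)

theorem isCurve_bar {P : Fin q → MvPolynomial (Fin (n + 1)) k} {p : Fin (n + 1) → Polynomial L} :
    IsCurve (bar L P) p ↔ NonConst p ∧ ∀ i, aeval p (P i) = 0 := by
  unfold IsCurve bar
  simp only [MvPolynomial.aeval_map_algebraMap]

/-- **Descent.** -/
theorem descend_form [IsGalois k L] {P : Fin q → MvPolynomial (Fin (n + 1)) k}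
    {Z : Set (Fin (n + 1) → L)}
    (hmin : ∀ g : MvPolynomial (Fin (n + 1)) k, (∃ e, g.IsHomogeneous e) →
      (∀ p : Fin (n + 1) → Polynomial L, NonConst p → (∀ i, aeval p (P i) = 0) → aeval p g = 0) →
      ∀ x ∈ Z, aeval x g = 0)
    {H : MvPolynomial (Fin (n + 1)) L} (hH : IsForm H)
    (hc : ∀ p, IsCurve (bar L P) p → aeval p H = 0) {x : Fin (n + 1) → L} (hx : x ∈ Z) :
    val x H = 0 := by
  obtain ⟨d, hd⟩ := hH
  let I : Submodule L (MvPolynomial (Fin (n + 1)) L) :=
    { carrier := {H | H.IsHomogeneous d ∧ ∀ p, IsCurve (bar L P) p → aeval p H = 0}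
      add_mem' := by
        rintro a b ⟨h1, h2⟩ ⟨h3, h4⟩
        exact ⟨h1.add h3, fun p hp => by rw [map_add, h2 p hp, h4 p hp, add_zero]⟩
      zero_mem' := ⟨isHomogeneous_zero _ _ _, fun p _ => map_zero _⟩
      smul_mem' := by
        rintro c a ⟨h1, h2⟩
        refine ⟨?_, fun p hp => by rw [map_smul, h2 p hp, smul_zero]⟩
        rw [MvPolynomial.smul_eq_C_mul]
        have h3 := (isHomogeneous_C (Fin (n + 1)) c).mul h1
        rwa [zero_add] at h3 }
  have hI : ∀ σ : L ≃ₐ[k] L, ∀ H ∈ I, map (σ : L →+* L) H ∈ I := by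
    rintro σ H ⟨h1, h2⟩
    refine ⟨h1.map _, fun p hp => ?_⟩
    rw [isCurve_bar] at hp
    let p' : Fin (n + 1) → Polynomial L := fun i =>
      Polynomial.mapAlgHom ((σ.symm : L ≃ₐ[k] L) : L →ₐ[k] L) (p i)
    have hp' : IsCurve (bar L P) p' := by
      rw [isCurve_bar]
      constructor
      · obtain ⟨i, j, a, b, hab⟩ := hp.1
        refine ⟨i, j, σ.symm a, σ.symm b, ?_⟩
        have he : ∀ i a, (p' i).eval (σ.symm a) = σ.symm ((p i).eval a) := by
          intro i a
          simp only [p', Polynomial.coe_mapAlgHom]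
          rw [Polynomial.eval_map]
          exact Polynomial.eval₂_at_apply (p := p i) ((σ.symm : L ≃ₐ[k] L) : L →+* L) a
        rw [he, he, he, he, ← map_mul, ← map_mul]
        exact fun h3 => hab (σ.symm.injective h3)
      · intro i
        have h3 := MvPolynomial.comp_aeval_apply (R := k) p
          (Polynomial.mapAlgHom ((σ.symm : L ≃ₐ[k] L) : L →ₐ[k] L)) (P i)
        rw [hp.2 i, map_zero] at h3
        exact h3.symm
    have h3 := congrArg (Polynomial.mapRingHom (σ : L →+* L)) (h2 p' hp')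
    rw [map_zero, MvPolynomial.aeval_def, MvPolynomial.eval₂_comp_left] at h3
    rw [MvPolynomial.aeval_def, MvPolynomial.eval₂_map, ← h3]
    have e1 : (algebraMap L (Polynomial L)).comp (σ : L →+* L) =
        (Polynomial.mapRingHom (σ : L →+* L)).comp (algebraMap L (Polynomial L)) := by
      ext a : 1
      simp
    have e2 : p = (Polynomial.mapRingHom (σ : L →+* L)) ∘ p' := by
      funext i
      simp only [p', Function.comp, Polynomial.coe_mapAlgHom, Polynomial.coe_mapRingHom,
        Polynomial.map_map]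
      have e3 : (σ : L →+* L).comp ((σ.symm : L ≃ₐ[k] L) : L →+* L) = RingHom.id L := by
        ext a
        simp
      have e4 : (σ : L →+* L).comp (((σ.symm : L ≃ₐ[k] L) : L →ₐ[k] L) : L →+* L) =
          RingHom.id L := e3
      rw [e4, Polynomial.map_id]
    rw [e1]
    congr 1
  have h5 := galois_descent I hI H ⟨hd, hc⟩
  have h6 : Submodule.span L {F | F ∈ I ∧ ∃ g : MvPolynomial (Fin (n + 1)) k,
      map (algebraMap k L) g = F} ≤ LinearMap.ker (aeval (R := L) x).toLinearMap := by
    rw [Submodule.span_le]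
    rintro _ ⟨⟨h7, h8⟩, g, rfl⟩
    have hinj : Function.Injective (algebraMap k L) := (algebraMap k L).injective
    have hg : g.IsHomogeneous d := by
      intro a ha
      refine h7 ?_
      rw [MvPolynomial.coeff_map]
      exact (map_ne_zero_iff _ hinj).2 ha
    have h9 := hmin g ⟨d, hg⟩ (fun p h10 h11 => by
      have h12 := h8 p (isCurve_bar.2 ⟨h10, h11⟩)
      rwa [MvPolynomial.aeval_map_algebraMap] at h12) x hx
    change aeval x (map (algebraMap k L) g) = 0
    rw [MvPolynomial.aeval_map_algebraMap]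
    exact h9
  exact h6 h5

end base

end Pool.Agent.Helper6K9.LG
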